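import Pool.Agent.V11261.GK.Data
import Pool.Agent.W558.T3.Base

/-!
MP_3029eb_ag: local uniformization of the quotients of `Spec B × 𝔸 ^ m` by arbitrary finite flat
group schemes of additive type (the kernels of `F - A` on `𝔾_a ^ r`, `A` an arbitrary matrix over
`B`), which act by translations through an arbitrary linear map, is reduced to the local
uniformization of the function field of `Spec B`. As the latter is known in dimension at most three,
this gives local uniformization for these quotients, of arbitrary dimension `dim B + m`, for all
varieties `Spec B` of dimension at most three.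
-/

set_option autoImplicit false

open MvPolynomial Pool.Agent.H519R3.RS Pool.Agent.W558

namespace Pool.Agent.Results.MP_3029eb_ag.AdditiveTypeLU

/-- Local uniformization (over `k`, in the form of Zariski) of the function field `E`: for every
valuation ring `V` of `E` which contains `k`, all finite subsets of `V` are contained in smooth
`k`-subalgebras of `V`. -/
def LocallyUniformizable (k E : Type) [Field k] [Field E] [Algebra k E] : Prop :=
  ∀ V : ValuationSubring E, (∀ c : k, algebraMap k E c ∈ V) → ∀ s : Finset E, (∀ x ∈ s, x ∈ V) →
    ∃ C : Subalgebra k E, Algebra.Smooth k C ∧ (∀ x ∈ s, x ∈ C) ∧ ∀ x ∈ C, x ∈ V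

/-- All local rings of `Spec A` admit local uniformization. -/
def LocalRingsAdmitLU (A : Type) [CommRing A] : Prop :=
  ∀ (P : Ideal A) [P.IsPrime] (R : Type) [CommRing R] [IsLocalRing R] [Algebra A R]
    [IsLocalization.AtPrime R P], AdmitsLU R

section defs

variable {B : Type} [CommRing B] {m r : ℕ}

/-- The ideal `(x i ^ p - ∑ l, A i l * x l)` of the subgroup scheme `ker (F - A)` of `𝔾_a ^ r`,
in `B[y 1, ..., y m][x 1, ..., x r]`. -/
noncomputable def groupIdeal (m p : ℕ) (A : Fin r → Fin r → B) :
    Ideal (MvPolynomial (Fin r) (MvPolynomial (Fin m) B)) :=
  Ideal.span (Set.range fun i => X i ^ p - ∑ l, C (C (A i l)) * X l)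

/-- The homomorphism `f (y) ↦ f (y + W x)` from `B[y 1, ..., y m]` to
`B[y 1, ..., y m][x 1, ..., x r]`, where `(W x) j = ∑ l, W j l * x l`. -/
noncomputable def generic (W : Fin m → Fin r → B) :
    MvPolynomial (Fin m) B →ₐ[B] MvPolynomial (Fin r) (MvPolynomial (Fin m) B) :=
  aeval fun j => C (X j) + ∑ l, C (C (W j l)) * X l

/-- The algebra of the functions `f (y)` on `Spec B × 𝔸 ^ m` with `f (y + W x) ≡ f (y)` modulo the
equations `x i ^ p = ∑ l, A i l * x l`. -/
noncomputable def invariants (k : Type) [Field k] [Algebra k B] (p : ℕ) (A : Fin r → Fin r → B)
    (W : Fin m → Fin r → B) : Subalgebra k (MvPolynomial (Fin m) B) where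
  carrier := {f | generic W f - C f ∈ groupIdeal m p A}
  mul_mem' := by
    intro f g hf hg
    have h : generic W (f * g) - C (f * g) =
        generic W g * (generic W f - C f) + C f * (generic W g - C g) := by
      rw [map_mul, C_mul]; ring
    change generic W (f * g) - C (f * g) ∈ groupIdeal m p A
    rw [h]
    exact Ideal.add_mem _ (Ideal.mul_mem_left _ _ hf) (Ideal.mul_mem_left _ _ hg)
  add_mem' := by
    intro f g hf hg
    have h : generic W (f + g) - C (f + g) = (generic W f - C f) + (generic W g - C g) := by
      rw [map_add, C_add]; ring
    change generic W (f + g) - C (f + g) ∈ groupIdeal m p A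
    rw [h]
    exact Ideal.add_mem _ hf hg
  algebraMap_mem' := by
    intro x
    have h : generic W (C (algebraMap k B x)) = C (C (algebraMap k B x)) :=
      (generic W).commutes _
    change generic W (C (algebraMap k B x)) - C (C (algebraMap k B x)) ∈ groupIdeal m p A
    rw [h, sub_self]
    exact Ideal.zero_mem _

end defs

/-- Let `k` be a field of characteristic `p` and `B` a domain of finite type over `k`, of any
dimension and possibly singular, whose fraction field `E` is locally uniformizable over `k`; this
holds, for example, if `k` is perfect and `E` is the function field of a smooth projective surface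
over `k` (or if `E` has log smooth models), and, by theorems of Abhyankar and of Cossart and
Piltant, if `k` is perfect and the dimension of `B` is at most three.

Let `A` be an arbitrary `r × r` matrix and `W` an arbitrary `m × r` matrix over `B`. The subgroup
scheme `H = ker (F - A)` of `𝔾_a ^ r`, defined by the equations `x i ^ p = ∑ l, A i l * x l`, is
finite and flat of order `p ^ r` over `B` (all finite flat commutative group schemes killed by the
Verschiebung are locally of this form; they may be étale at some points and infinitesimal at others).
It acts on `Spec B × 𝔸 ^ m` by the translations `y ↦ y + W x`. All local rings of the quotient, the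
spectrum of the ring of invariants, admit local uniformization. -/
theorem result (p : ℕ) [Fact p.Prime] (k : Type) [Field k] [CharP k p]
    (B : Type) [CommRing B] [IsDomain B] [Algebra k B] [Algebra.FiniteType k B]
    (hB : LocallyUniformizable k (FractionRing B) ∨
      (PerfectField k ∧ Algebra.trdeg k (FractionRing B) = 2 ∧ HasModel k (FractionRing B)) ∨
      HasLogModels k (FractionRing B)) (m r : ℕ) (A : Fin r → Fin r → B) (W : Fin m → Fin r → B) :
    LocalRingsAdmitLU (invariants k p A W) := by
  classical
  have hBp : CharP B p := charP_of_injective_algebraMap (FaithfulSMul.algebraMap_injective k B) p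
  have hE : Pool.Agent.V11261.LU.HasLU k (FractionRing B) := by
    rcases hB with h | ⟨_, h2, hE⟩ | h
    · exact h
    · exact Pool.Agent.V11261.LU.hasLU_of_hasLM (Pool.Agent.W418.LCI.hasLM_of_surface k _ h2 hE)
    · exact Pool.Agent.V11261.LU.hasLU_of_hasLM (Pool.Agent.W418.LCI.hasLM_of_models k _ h)
  have heq : invariants k p A W = Pool.Agent.V11261.GK.ring k p A W := by
    ext f
    exact Iff.rfl
  rw [heq]
  intro P _ R _ _ _ _
  exact Pool.Agent.V11261.GK.lu (p := p) hE A W P R

end Pool.Agent.Results.MP_3029eb_ag.AdditiveTypeLU
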