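import Pool.Agent.V11261.HG.LU
import Pool.Agent.W558.T3.Base

/-!
MP_3029eb_ag: local uniformization of the quotients of `Spec B × 𝔸 ^ m` by the infinitesimal group
schemes over `B` which degenerate from `μ_(p ^ s)` to `α_(p ^ s)`, acting by families of homotheties
degenerating to translations, is reduced to the local uniformization of the function field of
`Spec B`. As the latter is known in dimension at most three, this gives local uniformization for
these quotients, of arbitrary dimension `dim B + m`, for all varieties `Spec B` of dimension at
most three.
-/

set_option autoImplicit false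

open MvPolynomial Pool.Agent.H519R3.RS Pool.Agent.W558

namespace Pool.Agent.Results.MP_3029eb_ag.HomothetiesLU

/-- Local uniformization (over `k`, in the form of Zariski) of the function field `E`: for every
valuation ring `V` of `E` which contains `k`, all finite subsets of `V` are contained in smooth
`k`-subalgebras of `V`. -/
def LocallyUniformizable (k E : Type) [Field k] [Field E] [Algebra k E] : Prop :=
  ∀ V : ValuationSubring E, (∀ c : k, algebraMap k E c ∈ V) → ∀ s : Finset E, (∀ x ∈ s, x ∈ V) →
    ∃ C : Subalgebra k E, Algebra.Smooth k C ∧ (∀ x ∈ s, x ∈ C) ∧ ∀ x ∈ C, x ∈ V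

/-- All local rings of `Spec A` admit local uniformization. -/
def LocalRingsAdmitLU (A : Type) [CommRing A] : Prop :=
  ∀ (P : Ideal A) [P.IsPrime] (R : Type) [CommRing R] [IsLocalRing R] [Algebra A R]
    [IsLocalization.AtPrime R P], AdmitsLU R

section defs

variable {B : Type} [CommRing B] {m : ℕ}

/-- The homomorphism `f (y) ↦ f (y + T (c y + w))` from `B[y 1, ..., y m]` to
`B[y 1, ..., y m][T]`. -/
noncomputable def generic (c : B) (w : Fin m → B) :
    MvPolynomial (Fin m) B →ₐ[B] Polynomial (MvPolynomial (Fin m) B) :=
  aeval fun j => Polynomial.C (X j) + Polynomial.X * Polynomial.C (C c * X j + C (w j))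

/-- The algebra of the functions `f (y)` on `Spec B × 𝔸 ^ m` with
`f ((1 + c T) y + T w) ≡ f (y)` modulo `T ^ q`. -/
noncomputable def invariants (k : Type) [Field k] [Algebra k B] (q : ℕ) (c : B)
    (w : Fin m → B) : Subalgebra k (MvPolynomial (Fin m) B) where
  carrier := {f | Polynomial.X ^ q ∣ generic c w f - Polynomial.C f}
  mul_mem' := by
    intro f g hf hg
    have h : generic c w (f * g) - Polynomial.C (f * g) =
        (generic c w f - Polynomial.C f) * generic c w g +
          Polynomial.C f * (generic c w g - Polynomial.C g) := by
      rw [map_mul, map_mul]; ring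
    change Polynomial.X ^ q ∣ generic c w (f * g) - Polynomial.C (f * g)
    rw [h]
    exact dvd_add (dvd_mul_of_dvd_left hf _) (dvd_mul_of_dvd_right hg _)
  add_mem' := by
    intro f g hf hg
    have h : generic c w (f + g) - Polynomial.C (f + g) =
        (generic c w f - Polynomial.C f) + (generic c w g - Polynomial.C g) := by
      rw [map_add, map_add]; ring
    change Polynomial.X ^ q ∣ generic c w (f + g) - Polynomial.C (f + g)
    rw [h]
    exact dvd_add hf hg
  algebraMap_mem' := by
    intro x
    have h : generic c w (C (algebraMap k B x)) = Polynomial.C (C (algebraMap k B x)) :=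
      (generic c w).commutes _
    change _ ∣ generic c w (C (algebraMap k B x)) - Polynomial.C (C (algebraMap k B x))
    rw [h, sub_self]
    exact dvd_zero _

end defs

/-- Let `k` be a field of characteristic `p` and `B` a domain of finite type over `k`, of any
dimension and possibly singular, whose fraction field `E` is locally uniformizable over `k`; this
holds, for example, if `k` is perfect and `E` is the function field of a smooth projective surface
over `k` (or if `E` has log smooth models), and, by theorems of Abhyankar and of Cossart and
Piltant, if `k` is perfect and the dimension of `B` is at most three.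

Let `c` be an element of `B` and `w` a vector in `B ^ m`, `m ≥ 1`, not both zero, and `s ≥ 0`. Let
`N` be the finite flat group scheme over `B` defined by `T ^ (p ^ s) = 0` in the group scheme with
the law `T + T' + c T T'`. It is isomorphic to `μ_(p ^ s)` where `c` is invertible and to the
Frobenius kernel `α_(p ^ s)` of the additive group where `c` is zero. It acts on `Spec B × 𝔸 ^ m` by
`y ↦ (1 + c T) y + T w`. All local rings of the quotient, the spectrum of the ring of invariants,
admit local uniformization. -/
theorem result (p : ℕ) [Fact p.Prime] (k : Type) [Field k] [CharP k p]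
    (B : Type) [CommRing B] [IsDomain B] [Algebra k B] [Algebra.FiniteType k B]
    (hB : LocallyUniformizable k (FractionRing B) ∨
      (PerfectField k ∧ Algebra.trdeg k (FractionRing B) = 2 ∧ HasModel k (FractionRing B)) ∨
      HasLogModels k (FractionRing B)) (m : ℕ) (hm : 0 < m) (c : B) (w : Fin m → B)
    (h0 : c ≠ 0 ∨ w ≠ 0) (s : ℕ) : LocalRingsAdmitLU (invariants k (p ^ s) c w) := by
  classical
  have hBp : CharP B p := charP_of_injective_algebraMap (FaithfulSMul.algebraMap_injective k B) p
  have hE : Pool.Agent.V11261.LU.HasLU k (FractionRing B) := by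
    rcases hB with h | ⟨_, h2, hE⟩ | h
    · exact h
    · exact Pool.Agent.V11261.LU.hasLU_of_hasLM (Pool.Agent.W418.LCI.hasLM_of_surface k _ h2 hE)
    · exact Pool.Agent.V11261.LU.hasLU_of_hasLM (Pool.Agent.W418.LCI.hasLM_of_models k _ h)
  have hne : Nonempty (Fin m) := ⟨⟨0, hm⟩⟩
  have heq : invariants k (p ^ s) c w = Pool.Agent.V11261.HG.ringB k c w (p ^ s) := by
    ext f
    exact Iff.rfl
  rw [heq]
  intro P _ R _ _ _ _
  exact Pool.Agent.V11261.HG.lu (p := p) hE s c w h0 P R

end Pool.Agent.Results.MP_3029eb_ag.HomothetiesLU
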