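import Pool.Agent.V1128.INV.LU
import Pool.Agent.Y223.INV.Fin

/-!
MP_3029eb_ag: resolution and local uniformization, in every dimension and in mixed and equal
characteristic, descend along quadratic extensions with nondegenerate wild fixed points.

Let `R` be a Noetherian local domain and `K` a quadratic Galois extension of its field of fractions,
with the involution `σ`. Let `X` be a regular integral scheme, projective over `R`, with the function
field `K`, to which `σ` extends (for instance the spectrum of the integral closure of `R` in `K`, if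
it is finite over `R` and regular, or a resolution of it). It is given by homogeneous coordinates
`H j` in `K`: its charts are the spectra of the rings `R[H 0 / H j, ..., H N / H j] ⊆ K`. A
`σ`-stable module `I ≠ 0` of linear forms cuts out the centre, a regular subscheme (it is empty if
`I` is the module of all linear forms). There are no conditions on the fixed points of residue
characteristic different from `2`. At the fixed points of residue characteristic `2`:

* outside the centre, `σ = 1 + t δ`, where the ideal generated by the image of `δ` is the unit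
  ideal or has a regular quotient (the fixed scheme is the sum of the divisor `t = 0` and of a
  regular scheme),
* on the centre, `σ = 1 + t δ`, `δ ∘ δ = ε δ`, where `ε` and the image of `δ` are in the ideal of the
  centre, which `δ` maps into its square, and the leading form of `δ` along the centre has no zeros.

Then some blowing-up of the spectrum of `R` is regular, and `R` admits local uniformization.
-/

set_option autoImplicit false

namespace Pool.Agent.Results.MP_3029eb_ag.InvolutionDescent

/-- The local domain `R` admits local uniformization: for every valuation ring `V` of its field of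
fractions which is centred on `R` there is a finitely generated `R`-algebra in `V` whose
localization at the centre of `V` is regular. -/
def AdmitsLU (R : Type) [CommRing R] [IsLocalRing R] : Prop :=
  ∀ (F : Type) [Field F] [Algebra R F] [IsFractionRing R F] (V : ValuationSubring F),
    (∀ r : R, algebraMap R F r ∈ V) →
    (∀ r : R, r ∈ IsLocalRing.maximalIdeal R ↔ V.valuation (algebraMap R F r) < 1) →
    ∃ A : Subalgebra R F, A.FG ∧ (∀ a : A, (a : F) ∈ V) ∧
      ∃ Q : Ideal A, ∃ (_ : Q.IsPrime), (∀ a : A, a ∈ Q ↔ V.valuation (a : F) < 1) ∧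
        IsRegularLocalRing (Localization.AtPrime Q)

/-- Some blowing-up of the spectrum of `R` is regular: the field of fractions `F` of `R` has a
finitely generated `R`-submodule `M ≠ 0` (a fractional ideal) such that all the local rings of the
charts `R[M / f]` of the blowing-up of `M` are regular. -/
def HasRegularBlowUp (R : Type) [CommRing R] : Prop :=
  ∀ (F : Type) [Field F] [Algebra R F] [IsFractionRing R F],
    ∃ M : Submodule R F, M.FG ∧ M ≠ ⊥ ∧ ∀ f ∈ M, f ≠ 0 →
      ∀ (𝔮 : Ideal (Algebra.adjoin R {z : F | ∃ m ∈ M, z = m / f})) [𝔮.IsPrime],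
        IsRegularLocalRing (Localization.AtPrime 𝔮)

section conditions

variable {R K : Type} [CommRing R] [Field K] [Algebra R K]

/-- The ring `R[H 0 / H j, ..., H N / H j]` of the chart `H j ≠ 0` of `X`. -/
def chartRing (R : Type) {K : Type} [CommRing R] [Field K] [Algebra R K] {N : ℕ}
    (H : Fin (N + 1) → K) (j : Fin (N + 1)) : Subring K :=
  (Algebra.adjoin R (Set.range fun l => H l / H j)).toSubring

/-- The local ring at the prime `𝔮` of the subring `A` of the field `K`, as a subring of `K`. -/
noncomputable def localRing (A : Subring K) (𝔮 : Ideal A) [𝔮.IsPrime] : Subring K :=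
  (LocalSubring.ofPrime A 𝔮).toSubring

/-- The ideal generated by the linear forms in `I` (divided by the linear form `h`) in `Q`. -/
def centreIdeal (I : Submodule R K) (h : K) (Q : Subring K) : Ideal Q :=
  Ideal.span {y : Q | ∃ n ∈ I, (y : K) = n / h}

variable (σ : K ≃ₐ[R] K)

/-- The point with the local ring `Q` is a point of the fixed scheme of `σ`: the ring `Q` is stable
under `σ`, which acts trivially on its residue field. -/
def IsFixed (Q : Subring K) : Prop :=
  ∀ x : Q, ∃ y : Q, (y : K) = σ x ∧ ¬ IsUnit (y - x)

/-- `σ = 1 + t δ` on `Q`, where the ideal generated by the image of `δ` is the unit ideal, or has a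
regular quotient: the fixed scheme is the sum of the divisor of `t` and a regular scheme. -/
def RegularWild (Q : Subring K) : Prop :=
  ∃ (t : Q) (δ : Q → Q), t ≠ 0 ∧ (∀ x : Q, σ x = x + t * δ x) ∧
    (Ideal.span (Set.range δ) = ⊤ ∨ IsRegularLocalRing (Q ⧸ Ideal.span (Set.range δ)))

/-- `σ = 1 + t δ` on `Q`, and `δ ∘ δ = ε δ`, where `ε` and the image of `δ` are in the ideal `I` of
the centre, and `δ` maps `I` to `I ^ 2`, and the leading form of `δ` along the centre has no zeros:
the products of `n + 2` elements of `I` are combinations of the elements `ε a` and `δ(x) a`,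
`a ∈ I ^ (n + 1)`, and `δ(y) b`, `y ∈ I`, `b ∈ I ^ n`. -/
def NondegenerateWild (Q : Subring K) (I : Ideal Q) : Prop :=
  ∃ (t ε : Q) (δ : Q → Q), t ≠ 0 ∧ (∀ x : Q, σ x = x + t * δ x) ∧ (∀ x, δ (δ x) = ε * δ x) ∧
    ε ∈ I ∧ (∀ x, δ x ∈ I) ∧ (∀ x ∈ I, δ x ∈ I ^ 2) ∧
    ∃ n : ℕ, I ^ (n + 2) ≤ (Ideal.span {ε} ⊔ Ideal.span (Set.range δ)) * I ^ (n + 1) ⊔
      Ideal.span (δ '' I) * I ^ n

/-- The centre is empty or regular at the point with the local ring `Q`, and the fixed points of
residue characteristic `2` outside the centre, and on the centre, satisfy the respective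
condition. -/
def PointCondition (Q : Subring K) (I : Ideal Q) : Prop :=
  (I = ⊤ ∨ IsRegularLocalRing (Q ⧸ I)) ∧
    (¬ IsUnit (2 : Q) → IsFixed σ Q →
      (I = ⊤ → RegularWild σ Q) ∧ (I ≠ ⊤ → NondegenerateWild σ Q I))

end conditions

open Pool.Agent.H918R2.Quad Pool.Agent.TH188.ARC Pool.Agent.TH188.QS Pool.Agent.W418.LU2 in
/-- Local uniformization from a module with regular charts. -/
theorem lu_of_hasModule {R F : Type} [CommRing R] [Field F] [Algebra R F] (h : HasModule R F)
    (V : ValuationSubring F) (hV : ∀ r : R, algebraMap R F r ∈ V) :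
    ∃ A : Subalgebra R F, A.FG ∧ (∀ a : A, (a : F) ∈ V) ∧
      ∃ Q : Ideal A, ∃ (_ : Q.IsPrime), (∀ a : A, a ∈ Q ↔ V.valuation (a : F) < 1) ∧
        IsRegularLocalRing (Localization.AtPrime Q) := by
  obtain ⟨M, hfg, hne, -, hreg⟩ := h
  obtain ⟨_, g, hg, hg0, hgV, -⟩ := Pool.Agent.Y223.CC.exists_LR hV hfg hne
  have hcV := chart_le_V hV hgV
  let φ : chart R M g →+* V :=
    (chart R M g).toSubring.subtype.codRestrict V fun x => hcV x.2
  let P : Ideal (chart R M g) := (IsLocalRing.maximalIdeal V).comap φ
  have hP : P.IsPrime := Ideal.comap_isPrime _ _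
  exact ⟨chart R M g, Pool.Agent.V1128.INV.chart_fg hfg g, fun a => hcV a.2, P, hP,
    fun b => V.valuation_lt_one_iff (φ b), hreg g hg hg0 P⟩

/-- Let `R` be a Noetherian local domain, `X` a regular integral scheme, projective over `R`, with
the homogeneous coordinates `H j` in its function field `K`, and `σ ≠ 1` an involution of `K` over
`R` which maps linear forms to linear forms, such that the field of the invariants of `σ` is the
field of fractions of `R`. Let `I ≠ 0` be a `σ`-stable module of linear forms, such that the
condition `PointCondition` is satisfied at all points of `X`. Then some blowing-up of the spectrum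
of `R` is regular, and `R` admits local uniformization. -/
theorem result (R : Type) [CommRing R] [IsDomain R] [IsNoetherianRing R] [IsLocalRing R]
    (K : Type) [Field K] [Algebra R K] (hinj : Function.Injective (algebraMap R K))
    {N : ℕ} (H : Fin (N + 1) → K) (hH : ∀ j, H j ≠ 0)
    (hreg : ∀ j, IsRegularRing (chartRing R H j))
    (hfrac : ∀ y : K, ∃ a ∈ chartRing R H 0, ∃ b ∈ chartRing R H 0, b ≠ 0 ∧ y = a / b)
    (σ : K ≃ₐ[R] K) (hσ : ∀ y, σ (σ y) = y) (hσ1 : σ ≠ 1)
    (hσH : ∀ j, σ (H j) ∈ Submodule.span R (Set.range H))
    (hinv : ∀ y, σ y = y → ∃ r s : R, s ≠ 0 ∧ y = algebraMap R K r / algebraMap R K s)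
    (I : Submodule R K) (hI : I ≤ Submodule.span R (Set.range H)) (hI0 : I ≠ ⊥)
    (hσI : ∀ x ∈ I, σ x ∈ I)
    (h : ∀ j (𝔮 : Ideal (chartRing R H j)) [𝔮.IsPrime],
      PointCondition σ (localRing (chartRing R H j) 𝔮)
        (centreIdeal I (H j) (localRing (chartRing R H j) 𝔮))) :
    HasRegularBlowUp R ∧ AdmitsLU R := by
  have hcl : Subfield.closure (chartRing R H 0 : Set K) = ⊤ := by
    rw [← top_le_iff]
    intro y _
    obtain ⟨a, ha, b, hb, -, rfl⟩ := hfrac y
    exact Subfield.div_mem _ (Subfield.subset_closure ha) (Subfield.subset_closure hb)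
  have hσ1' : ∃ x, σ x ≠ x := by
    by_contra hcon
    push Not at hcon
    exact hσ1 (AlgEquiv.ext hcon)
  have key : ∀ (F : Type) [Field F] [Algebra R F] [IsFractionRing R F],
      Pool.Agent.H918R2.Quad.HasModule R F := by
    intro F _ _ _
    let _ : Algebra F K := (IsFractionRing.lift (A := R) (K := F) hinj : F →+* K).toAlgebra
    have hst : IsScalarTower R F K := IsScalarTower.of_algebraMap_eq fun r =>
      (IsFractionRing.lift_algebraMap hinj r).symm
    have hF : ∀ x, σ x = x ↔ ∃ f : F, algebraMap F K f = x := by
      intro x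
      constructor
      · intro hx
        obtain ⟨r, s, hs, rfl⟩ := hinv x hx
        refine ⟨algebraMap R F r / algebraMap R F s, ?_⟩
        rw [map_div₀, ← IsScalarTower.algebraMap_apply, ← IsScalarTower.algebraMap_apply]
      · rintro ⟨f, rfl⟩
        obtain ⟨r, s, hs, rfl⟩ := IsFractionRing.div_surjective (A := R) f
        rw [map_div₀, ← IsScalarTower.algebraMap_apply, ← IsScalarTower.algebraMap_apply,
          map_div₀, σ.commutes, σ.commutes]
    exact Pool.Agent.Y223.INV.inv_module (F := F) hinj H hH hreg 0 hcl σ hσ hσ1' hσH I hI hI0 hσI h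
      hF
  refine ⟨?_, ?_⟩
  · intro F _ _ _
    obtain ⟨M, hfg, ⟨f, hf, hf0⟩, -, hM⟩ := key F
    refine ⟨M, hfg, fun h0 => hf0 ?_, fun f hf hf0 => hM f hf hf0⟩
    rw [h0] at hf
    exact (Submodule.mem_bot R).1 hf
  · intro F _ _ _ V hV _
    exact lu_of_hasModule (key F) V hV

end Pool.Agent.Results.MP_3029eb_ag.InvolutionDescent
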