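import Pool.Agent.V11261.LU.Main
import Pool.Agent.W558.T3.Base

/-!
MP_3029eb_ag: local uniformization of the quotients of `Spec B × 𝔸 ^ m` by group schemes of
translations is reduced to the local uniformization of the function field of `Spec B`. As the latter
is known in dimension at most three, this gives local uniformization for these quotients, of
arbitrary dimension `dim B + m`, for all varieties `Spec B` of dimension at most three.
-/

set_option autoImplicit false

open MvPolynomial Pool.Agent.H519R3.RS Pool.Agent.W558

namespace Pool.Agent.Results.MP_3029eb_ag.TranslationQuotientsLU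

/-- Local uniformization (over `k`, in the form of Zariski) of the function field `E`: for every
valuation ring `V` of `E` which contains `k`, all finite subsets of `V` are contained in smooth
`k`-subalgebras of `V`. -/
def LocallyUniformizable (k E : Type) [Field k] [Field E] [Algebra k E] : Prop :=
  ∀ V : ValuationSubring E, (∀ c : k, algebraMap k E c ∈ V) → ∀ s : Finset E, (∀ x ∈ s, x ∈ V) →
    ∃ C : Subalgebra k E, Algebra.Smooth k C ∧ (∀ x ∈ s, x ∈ C) ∧ ∀ x ∈ C, x ∈ V

/-- All local rings of `Spec A` admit local uniformization. -/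
def LocalRingsAdmitLU (A : Type) [CommRing A] : Prop :=
  ∀ (P : Ideal A) [P.IsPrime] (R : Type) [CommRing R] [IsLocalRing R] [Algebra A R]
    [IsLocalization.AtPrime R P], AdmitsLU R

section defs

variable {B : Type} [CommRing B] {m : ℕ}

/-- The translation `f (y) ↦ f (y + g)` of the polynomials over `B`. -/
noncomputable def shift (g : Fin m → B) : MvPolynomial (Fin m) B →ₐ[B] MvPolynomial (Fin m) B :=
  aeval fun j => X j + C (g j)

/-- The homomorphism `f (y) ↦ f (y + T v)` from `B[y]` to `B[y][T]`. -/
noncomputable def generic (v : Fin m → B) :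
    MvPolynomial (Fin m) B →ₐ[B] Polynomial (MvPolynomial (Fin m) B) :=
  aeval fun j => Polynomial.C (X j) + Polynomial.X * Polynomial.C (C (v j))

lemma key_mul (v : Fin m → B) (Λ : Polynomial (MvPolynomial (Fin m) B))
    (f g : MvPolynomial (Fin m) B) (hf : Λ ∣ generic v f - Polynomial.C f)
    (hg : Λ ∣ generic v g - Polynomial.C g) : Λ ∣ generic v (f * g) - Polynomial.C (f * g) := by
  have h : generic v (f * g) - Polynomial.C (f * g) =
      (generic v f - Polynomial.C f) * generic v g +
        Polynomial.C f * (generic v g - Polynomial.C g) := by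
    rw [map_mul, map_mul]; ring
  rw [h]
  exact dvd_add (dvd_mul_of_dvd_left hf _) (dvd_mul_of_dvd_right hg _)

lemma key_add (v : Fin m → B) (Λ : Polynomial (MvPolynomial (Fin m) B))
    (f g : MvPolynomial (Fin m) B) (hf : Λ ∣ generic v f - Polynomial.C f)
    (hg : Λ ∣ generic v g - Polynomial.C g) : Λ ∣ generic v (f + g) - Polynomial.C (f + g) := by
  have h : generic v (f + g) - Polynomial.C (f + g) =
      (generic v f - Polynomial.C f) + (generic v g - Polynomial.C g) := by
    rw [map_add, map_add]; ring
  rw [h]
  exact dvd_add hf hg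

lemma key_C (v : Fin m → B) (Λ : Polynomial (MvPolynomial (Fin m) B)) (c : B) :
    Λ ∣ generic v (C c) - Polynomial.C (C c) := by
  have h : generic v (C c) = Polynomial.C (C c) := (generic v).commutes c
  rw [h, sub_self]
  exact dvd_zero _

/-- The algebra of the functions `f (y)` on `Spec B × 𝔸 ^ m` (the polynomials in `y 1, ..., y m`
over `B`) which are invariant under

* the translations `y ↦ y + g` for all `g` in the group `G`,
* the translations `y ↦ y + T v i` with `T ^ (p ^ s i) = 0`: `f (y + T v i) ≡ f (y)` modulo
  `T ^ (p ^ s i)`,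
* the translations `y ↦ y + T w i` with `T ^ p = b i T`: `f (y + T w i) ≡ f (y)` modulo
  `T ^ p - b i T`. -/
noncomputable def invariants (k : Type) [Field k] [Algebra k B] (p : ℕ)
    (G : AddSubgroup (Fin m → B)) {r n : ℕ} (v : Fin r → Fin m → B) (s : Fin r → ℕ)
    (w : Fin n → Fin m → B) (b : Fin n → B) : Subalgebra k (MvPolynomial (Fin m) B) where
  carrier := {f | (∀ g ∈ G, shift g f = f) ∧
    (∀ i, Polynomial.X ^ p ^ s i ∣ generic (v i) f - Polynomial.C f) ∧
    ∀ i, Polynomial.X ^ p - Polynomial.C (C (b i)) * Polynomial.X ∣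
      generic (w i) f - Polynomial.C f}
  mul_mem' := by
    rintro f g ⟨h1, h2, h3⟩ ⟨h4, h5, h6⟩
    exact ⟨fun a ha => by rw [map_mul, h1 a ha, h4 a ha], fun i => key_mul _ _ _ _ (h2 i) (h5 i),
      fun i => key_mul _ _ _ _ (h3 i) (h6 i)⟩
  add_mem' := by
    rintro f g ⟨h1, h2, h3⟩ ⟨h4, h5, h6⟩
    exact ⟨fun a ha => by rw [map_add, h1 a ha, h4 a ha], fun i => key_add _ _ _ _ (h2 i) (h5 i),
      fun i => key_add _ _ _ _ (h3 i) (h6 i)⟩
  algebraMap_mem' := by
    intro c
    exact ⟨fun a _ => (shift a).commutes (algebraMap k B c), fun i => key_C _ _ _,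
      fun i => key_C _ _ _⟩

/-- The monic additive polynomial `T ^ (p ^ s) + ∑ l < s, a l * T ^ (p ^ l)`. -/
noncomputable def additive (p s : ℕ) (a : ℕ → B) : Polynomial B :=
  Polynomial.X ^ p ^ s + ∑ l ∈ Finset.range s, Polynomial.C (a l) * Polynomial.X ^ p ^ l

/-- The algebra of the functions `f (y)` on `Spec B × 𝔸 ^ m` which are invariant under the
translations `y ↦ y + T w i` for `T` in the kernel of the additive polynomial
`P i = additive p (s i) (a i)`: `f (y + T w i) ≡ f (y)` modulo `P i (T)`, for all `i`. -/
noncomputable def invariants' (k : Type) [Field k] [Algebra k B] (p : ℕ) {r : ℕ}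
    (w : Fin r → Fin m → B) (s : Fin r → ℕ) (a : Fin r → ℕ → B) :
    Subalgebra k (MvPolynomial (Fin m) B) where
  carrier := {f | ∀ i, (additive p (s i) (a i)).map C ∣ generic (w i) f - Polynomial.C f}
  mul_mem' := fun hf hg i => key_mul _ _ _ _ (hf i) (hg i)
  add_mem' := fun hf hg i => key_add _ _ _ _ (hf i) (hg i)
  algebraMap_mem' := fun c i => key_C _ _ _

end defs

/-- Let `k` be a field of characteristic `p` and `B` a domain of finite type over `k`, of any
dimension and possibly singular, whose fraction field `E` is locally uniformizable over `k`; this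
holds, for example, if `k` is perfect and `E` is the function field of a smooth projective surface
over `k` (or if `E` has log smooth models), and, by theorems of Abhyankar and of Cossart and
Piltant, if `k` is perfect and the dimension of `B` is at most three.

1. Let `G` be a finite group of vectors in `B ^ m`, let `v i` and `w i` be arbitrary vectors in
`B ^ m`, `s i` natural numbers and `b i` elements of `B`. All local rings of the quotient of
`Spec B × 𝔸 ^ m` by the group scheme over `B` which is the product of the finite group `G`, of the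
Frobenius kernels `T ^ (p ^ s i) = 0` of the additive group and of the group schemes
`T ^ p = b i T` of order `p`, where `(g, a, c)` acts by the translation
`y ↦ y + g + ∑ i, a i * v i + ∑ i, c i * w i`, admit local uniformization.

2. Let `w i` be vectors in `B ^ m` with pairwise disjoint supports, and let `P i` be arbitrary monic
additive polynomials over `B`. All local rings of the quotient of `Spec B × 𝔸 ^ m` by the product
of the finite flat group schemes `ker (P i)`, where `(T i)` acts by the translation
`y ↦ y + ∑ i, T i * w i`, admit local uniformization. -/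
theorem result (p : ℕ) [Fact p.Prime] (k : Type) [Field k] [CharP k p]
    (B : Type) [CommRing B] [IsDomain B] [Algebra k B] [Algebra.FiniteType k B]
    (hB : LocallyUniformizable k (FractionRing B) ∨
      (PerfectField k ∧ Algebra.trdeg k (FractionRing B) = 2 ∧ HasModel k (FractionRing B)) ∨
      HasLogModels k (FractionRing B)) (m r : ℕ) :
    (∀ (G : AddSubgroup (Fin m → B)) [Finite G] (v : Fin r → Fin m → B) (s : Fin r → ℕ) (n : ℕ)
      (w : Fin n → Fin m → B) (b : Fin n → B), LocalRingsAdmitLU (invariants k p G v s w b)) ∧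
    ∀ (w : Fin r → Fin m → B), (∀ i i', i ≠ i' → ∀ j, w i j = 0 ∨ w i' j = 0) →
      ∀ (s : Fin r → ℕ) (a : Fin r → ℕ → B), LocalRingsAdmitLU (invariants' k p w s a) := by
  classical
  have hBp : CharP B p := charP_of_injective_algebraMap (FaithfulSMul.algebraMap_injective k B) p
  have hE : Pool.Agent.V11261.LU.HasLU k (FractionRing B) := by
    rcases hB with h | ⟨_, h2, hE⟩ | h
    · exact h
    · exact Pool.Agent.V11261.LU.hasLU_of_hasLM (Pool.Agent.W418.LCI.hasLM_of_surface k _ h2 hE)
    · exact Pool.Agent.V11261.LU.hasLU_of_hasLM (Pool.Agent.W418.LCI.hasLM_of_models k _ h)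
  refine ⟨?_, ?_⟩
  · intro G _ v s n w b
    have : Fintype G := Fintype.ofFinite G
    let ι : Type := Fin n ⊕ G
    let w' : ι → Fin m → B := Sum.elim w (fun g => g.1)
    let b' : ι → B := Sum.elim b (fun g => 1)
    have hL := Pool.Agent.V11261.TQ.ops_pairwise (p := p) v s w' b'
    have hOk := Pool.Agent.V11261.TQ.ops_ok (p := p) v s w' b'
    have hgen : ∀ u : Fin m → B, generic u = Pool.Agent.V11261.TQ.tr u := fun _ => rfl
    have hsh : ∀ u : Fin m → B, shift u = Pool.Agent.V11261.TQ.sh u := fun _ => rfl
    have hInv : ∀ (u : Fin m → B) (c : B) (f : MvPolynomial (Fin m) B),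
        Pool.Agent.V11261.TQ.Inv u p c f ↔
          Polynomial.X ^ p - Polynomial.C (C c) * Polynomial.X ∣
            Pool.Agent.V11261.TQ.tr u f - Polynomial.C f := fun _ _ _ => Iff.rfl
    have hG : ∀ f : MvPolynomial (Fin m) B, (∀ g : G, Pool.Agent.V11261.TQ.Inv g.1 p 1 f) ↔
        ∀ g ∈ G, Pool.Agent.V11261.TQ.sh g f = f := by
      intro f
      constructor
      · intro h g hg
        have h3 := (Pool.Agent.V11261.TQ.inv_iff (p := p) g f).1 (h ⟨g, hg⟩) 1
        have h4 : (fun j => ZMod.castHom (dvd_refl p) B 1 * g j) = g := by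
          funext j
          rw [map_one, one_mul]
        rw [h4] at h3
        exact h3
      · intro h g
        refine (Pool.Agent.V11261.TQ.inv_iff (p := p) g.1 f).2 fun c => ?_
        have h5 : (fun j => ZMod.castHom (dvd_refl p) B c * g.1 j) = c.val • g.1 := by
          funext j
          rw [Pi.smul_apply, nsmul_eq_mul]
          congr 1
          rw [← ZMod.natCast_zmod_val c, map_natCast, ZMod.natCast_zmod_val]
        rw [h5]
        exact h _ (G.nsmul_mem g.2 _)
    have heq : invariants k p G v s w b =
        Pool.Agent.V11261.TQ.ring k (Pool.Agent.V11261.TQ.ops p v s w' b') := by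
      ext f
      have h1 : f ∈ invariants k p G v s w b ↔ (∀ g ∈ G, shift g f = f) ∧
        (∀ i, Polynomial.X ^ p ^ s i ∣ generic (v i) f - Polynomial.C f) ∧
        ∀ i, Polynomial.X ^ p - Polynomial.C (C (b i)) * Polynomial.X ∣
          generic (w i) f - Polynomial.C f := Iff.rfl
      have h2 := Pool.Agent.V11261.TQ.mem_ring_ops (p := p) (k := k) v s w' b' f
      rw [h1]
      refine Iff.trans ?_ h2.symm
      simp only [hgen, hsh, ← hInv]
      rw [← hG]
      constructor
      · rintro ⟨h3, h4, h5⟩
        refine ⟨h4, fun i => ?_⟩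
        rcases i with i | g
        · exact h5 i
        · exact h3 g
      · rintro ⟨h4, h5⟩
        exact ⟨fun g => h5 (Sum.inr g), h4, fun i => h5 (Sum.inl i)⟩
    rw [heq]
    intro P _ R _ _ _ _
    exact Pool.Agent.V11261.LU.lu_TQ (p := p) hE _ hL hOk P R
  · intro w hw s a
    have heq : invariants' k p w s a = Pool.Agent.V11261.AK.ring k
        (Pool.Agent.V11261.AK.lst w fun i => Pool.Agent.V11261.AK.ap p (s i) (a i)) := by
      ext f
      rw [Pool.Agent.V11261.AK.mem_ring_lst]
      exact Iff.rfl
    rw [heq]
    intro P _ R _ _ _ _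
    exact Pool.Agent.V11261.LU.lu_AK hE w hw s a P R

end Pool.Agent.Results.MP_3029eb_ag.TranslationQuotientsLU
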